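import Pool.Agent.Y148.OD.Stm2

/-!
# Description of rational equivalence by one family (OD-6)
-/

set_option autoImplicit false

namespace Pool.Agent.Y914.OD

open MvPolynomial Pool.Agent.Y148.OD

variable {Ω : Type} [Field Ω] {τ : Type} [Fintype τ] {P : Type}

theorem chow_append (ℓ : P → MvPolynomial τ Ω) {n m : ℕ} (x : Fin n → P) (w : Fin m → P) :
    chow ℓ (Fin.append x w) = chow ℓ x * chow ℓ w := by
  unfold chow
  rw [Fin.prod_univ_add]
  simp only [Fin.append_left, Fin.append_right]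

theorem chow_ne (ℓ : P → MvPolynomial τ Ω) (h : ∀ p, ℓ p ≠ 0) {n : ℕ} (x : Fin n → P) :
    chow ℓ x ≠ 0 := by
  unfold chow
  exact Finset.prod_ne_zero_iff.mpr fun i _ => h _

theorem sum_append {n m : ℕ} (x : Fin n → P) (w : Fin m → P) :
    ∑ i, FreeAbelianGroup.of (Fin.append x w i) =
      ∑ i, FreeAbelianGroup.of (x i) + ∑ i, FreeAbelianGroup.of (w i) := by
  rw [Fin.sum_univ_add]
  simp only [Fin.append_left, Fin.append_right]

theorem cyc_mul (ℓ : P → MvPolynomial τ Ω) {n m : ℕ} {f g : MvPolynomial τ Ω}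
    (hf : IsCyc ℓ n f) (hg : IsCyc ℓ m g) : IsCyc ℓ (n + m) (f * g) := by
  obtain ⟨c, z, rfl⟩ := hf
  obtain ⟨d, t, rfl⟩ := hg
  refine ⟨c * d, Fin.append z t, ?_⟩
  rw [chow_append, C_mul]
  ring

theorem step_add (ℓ : P → MvPolynomial τ Ω) {n m : ℕ} {x y : Fin n → P} {a b : Fin m → P}
    (h1 : RatStep ℓ n x y) (h2 : RatStep ℓ m a b) :
    RatStep ℓ (n + m) (Fin.append x a) (Fin.append y b) := by
  obtain ⟨c, c', hc, hc', F, hF0, hF1, hF⟩ := h1
  obtain ⟨d, d', hd, hd', G, hG0, hG1, hG⟩ := h2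
  refine ⟨c * d, c' * d', mul_ne_zero hc hd, mul_ne_zero hc' hd', F * G, ?_, ?_, ?_⟩
  · rw [Polynomial.mul_coeff_zero, hF0, hG0, chow_append, C_mul]
    ring
  · rw [Polynomial.leadingCoeff_mul, hF1, hG1, chow_append, C_mul]
    ring
  · intro s
    rw [Polynomial.eval_mul]
    exact cyc_mul ℓ (hF s) (hG s)

theorem step_symm (ℓ : P → MvPolynomial τ Ω) (h : ∀ p, ℓ p ≠ 0) {n : ℕ} {x y : Fin n → P}
    (h1 : RatStep ℓ n x y) : RatStep ℓ n y x := by
  obtain ⟨c, c', hc, hc', F, hF0, hF1, hF⟩ := h1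
  refine ⟨c', c, hc', hc, F.reverse, ?_, ?_, ?_⟩
  · rw [Polynomial.coeff_zero_reverse, hF1]
  · rw [Polynomial.reverse_leadingCoeff, Polynomial.trailingCoeff]
    have h0 : F.coeff 0 ≠ 0 := by
      rw [hF0]
      exact mul_ne_zero (by simpa using hc) (chow_ne ℓ h x)
    have h1 : F.natTrailingDegree = 0 := by
      have := Polynomial.natTrailingDegree_le_of_ne_zero h0
      omega
    rw [h1, hF0]
  · intro s
    by_cases hs : s = 0
    · subst hs
      rw [C_0, ← Polynomial.coeff_zero_eq_eval_zero, Polynomial.coeff_zero_reverse, hF1]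
      exact ⟨c', y, rfl⟩
    · obtain ⟨d, z, hz⟩ := hF s⁻¹
      let inv : Invertible (C s⁻¹ : MvPolynomial τ Ω) :=
        ⟨C s, by rw [← C_mul, mul_inv_cancel₀ hs, C_1], by rw [← C_mul, inv_mul_cancel₀ hs, C_1]⟩
      have h2 := Polynomial.eval₂_reverse_mul_pow (RingHom.id (MvPolynomial τ Ω)) (C s⁻¹) F
      have h3 : (⅟(C s⁻¹ : MvPolynomial τ Ω)) = C s := rfl
      rw [h3, Polynomial.eval₂_id, Polynomial.eval₂_id, hz] at h2
      refine ⟨s ^ F.natDegree * d, z, ?_⟩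
      have h4 : (C (s ^ F.natDegree) : MvPolynomial τ Ω) * (C s⁻¹) ^ F.natDegree = 1 := by
        rw [← C_pow, ← C_mul, ← mul_pow, mul_inv_cancel₀ hs, one_pow, C_1]
      calc F.reverse.eval (C s) = F.reverse.eval (C s) *
            ((C (s ^ F.natDegree) : MvPolynomial τ Ω) * (C s⁻¹) ^ F.natDegree) := by
              rw [h4, mul_one]
        _ = C (s ^ F.natDegree) * (F.reverse.eval (C s) * (C s⁻¹) ^ F.natDegree) := by ring
        _ = _ := by rw [h2, C_mul]; ring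

theorem step_zero (ℓ : P → MvPolynomial τ Ω) (x : Fin 0 → P) : RatStep ℓ 0 x x := by
  refine ⟨1, 1, one_ne_zero, one_ne_zero, 1, ?_, ?_, ?_⟩
  · simp [chow]
  · simp [chow]
  · intro s
    exact ⟨1, x, by simp [chow]⟩

theorem mem_iff (ℓ : P → MvPolynomial τ Ω) (h : ∀ p, ℓ p ≠ 0) {e : FreeAbelianGroup P}
    (he : e ∈ ratSub ℓ) : ∃ (N : ℕ) (a b : Fin N → P), RatStep ℓ N a b ∧
      e = ∑ i, FreeAbelianGroup.of (a i) - ∑ i, FreeAbelianGroup.of (b i) := by
  induction he using AddSubgroup.closure_induction with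
  | mem e he => exact he
  | zero => exact ⟨0, Fin.elim0, Fin.elim0, step_zero ℓ _, by simp⟩
  | add e f _ _ h1 h2 =>
    obtain ⟨n, x, y, hxy, rfl⟩ := h1
    obtain ⟨m, a, b, hab, rfl⟩ := h2
    refine ⟨n + m, Fin.append x a, Fin.append y b, step_add ℓ hxy hab, ?_⟩
    rw [sum_append, sum_append]
    abel
  | neg e _ h1 =>
    obtain ⟨n, x, y, hxy, rfl⟩ := h1
    exact ⟨n, y, x, step_symm ℓ h hxy, by abel⟩

theorem chow_eq (ℓ : P → MvPolynomial τ Ω) (h : ∀ p, ℓ p ≠ 0) {n m : ℕ} (x y : Fin n → P)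
    (a b : Fin m → P) (he : ∑ i, FreeAbelianGroup.of (x i) - ∑ i, FreeAbelianGroup.of (y i) =
      ∑ i, FreeAbelianGroup.of (a i) - ∑ i, FreeAbelianGroup.of (b i)) :
    chow ℓ x * chow ℓ b = chow ℓ y * chow ℓ a := by
  let R := MvPolynomial τ Ω
  let K := FractionRing R
  have hu : ∀ p, algebraMap R K (ℓ p) ≠ 0 := fun p => by
    intro h0
    exact h p (IsFractionRing.injective R K (h0.trans (map_zero _).symm))
  let u : P → Additive Kˣ := fun p => Additive.ofMul (Units.mk0 _ (hu p))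
  let φ : FreeAbelianGroup P →+ Additive Kˣ := FreeAbelianGroup.lift u
  have hφ : ∀ {k : ℕ} (z : Fin k → P),
      ((φ (∑ i, FreeAbelianGroup.of (z i))).toMul : Kˣ) = (∏ i, Units.mk0 _ (hu (z i)) : Kˣ) := by
    intro k z
    rw [map_sum, toMul_sum]
    refine Finset.prod_congr rfl fun i _ => ?_
    simp [φ, u]
  have hφ2 : ∀ {k : ℕ} (z : Fin k → P),
      (((φ (∑ i, FreeAbelianGroup.of (z i))).toMul : Kˣ) : K) = algebraMap R K (chow ℓ z) := by
    intro k z
    rw [hφ, Units.coe_prod]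
    simp only [Units.val_mk0]
    unfold chow
    rw [map_prod]
  have h1 : (∑ i, FreeAbelianGroup.of (x i)) + (∑ i, FreeAbelianGroup.of (b i)) =
      (∑ i, FreeAbelianGroup.of (y i)) + (∑ i, FreeAbelianGroup.of (a i)) := by
    have h2 := sub_eq_sub_iff_add_eq_add.mp he
    rw [h2]
    abel
  have h2 := congrArg (fun e => (((φ e).toMul : Kˣ) : K)) h1
  simp only [map_add, toMul_add, Units.val_mul, hφ2] at h2
  rw [← map_mul, ← map_mul] at h2
  exact IsFractionRing.injective R K h2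

theorem stmRat : StmRat := by
  intro Ω _ τ _ P ℓ h n x y
  constructor
  · intro he
    obtain ⟨N, a, b, ⟨c, c', hc, hc', F, hF0, hF1, hF⟩, he'⟩ := mem_iff ℓ h he
    have hab := chow_eq ℓ h x y a b he'
    refine ⟨N, b, c, c', hc, hc', Polynomial.C (chow ℓ y) * F, ?_, ?_, ?_⟩
    · rw [Polynomial.mul_coeff_zero, Polynomial.coeff_C_zero, hF0, chow_append]
      calc chow ℓ y * (C c * chow ℓ a) = C c * (chow ℓ y * chow ℓ a) := by ring
        _ = _ := by rw [← hab]
    · rw [Polynomial.leadingCoeff_mul, Polynomial.leadingCoeff_C, hF1, chow_append]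
      ring
    · intro s
      rw [Polynomial.eval_mul, Polynomial.eval_C]
      exact cyc_mul ℓ ⟨1, y, by simp⟩ (hF s)
  · rintro ⟨m, w, hs⟩
    have h1 : (∑ i, FreeAbelianGroup.of (Fin.append x w i) -
        ∑ i, FreeAbelianGroup.of (Fin.append y w i) : FreeAbelianGroup P) ∈ ratSub ℓ :=
      AddSubgroup.subset_closure ⟨n + m, _, _, hs, rfl⟩
    rw [sum_append, sum_append, add_sub_add_right_eq_sub] at h1
    exact h1

end Pool.Agent.Y914.OD
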